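import Pool.Agent.U396.Asym2

/-! Triangle-free planar graphs are `(⌈3.81 m⌉, m)`-choosable for all large `m`. -/

set_option autoImplicit false

namespace Pool.Agent.Results.MP_143092_co.LargeM

/-- `G` is planar: distinct points of the plane for the vertices, simple arcs for the edges, which
meet the vertex points only at their ends and each other only at ends. -/
def Planar {V : Type} (G : SimpleGraph V) : Prop :=
  ∃ (p : V → ℝ × ℝ) (γ : V → V → unitInterval → ℝ × ℝ),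
    Function.Injective p ∧
    (∀ u v, G.Adj u v →
      Continuous (γ u v) ∧ Function.Injective (γ u v) ∧
      γ u v 0 = p u ∧ γ u v 1 = p v ∧
      (∀ t, γ u v t ∈ Set.range p → t = 0 ∨ t = 1)) ∧
    (∀ u v x y, G.Adj u v → G.Adj x y → s(u, v) ≠ s(x, y) →
      ∀ s t, γ u v s = γ x y t → s = 0 ∨ s = 1)

/-- the class of finite triangle-free planar graphs -/
def InQ {V : Type} (G : SimpleGraph V) : Prop := Finite V ∧ G.CliqueFree 3 ∧ Planar G

/-- `(a, b)`-choosability -/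
def Choosable {V : Type} (G : SimpleGraph V) (a b : ℕ) : Prop :=
  ∀ L : V → Finset ℕ, (∀ v, (L v).card = a) →
    ∃ f : V → Finset ℕ, (∀ v, f v ⊆ L v ∧ (f v).card = b) ∧
      ∀ u v, G.Adj u v → Disjoint (f u) (f v)

/-- For all large `m`, every triangle-free planar graph is `(⌈3.81 m⌉, m)`-choosable. -/
theorem result : ∃ m₀ : ℕ, ∀ m : ℕ, m₀ ≤ m → ∀ (V : Type) (G : SimpleGraph V), InQ G →
    Choosable G ⌈(381 / 100 : ℝ) * m⌉₊ m := by
  obtain ⟨m0, h0⟩ := Pool.Agent.U396.Asym.col_asym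
  refine ⟨m0, ?_⟩
  intro m hm V G hG L hL
  obtain ⟨hV, hG3, hP⟩ := hG
  have := Fintype.ofFinite V
  have h1 : (381 / 100 : ℝ) * m ≤ ⌈(381 / 100 : ℝ) * m⌉₊ := Nat.le_ceil _
  obtain ⟨a, ha⟩ : ∃ a : ℕ, a = ⌈(381 / 100 : ℝ) * m⌉₊ := ⟨_, rfl⟩
  rw [← ha] at h1 hL
  refine h0 m hm (4 * m - a) ?_ V G hG3 hP L (fun v => by rw [hL v]; omega)
  have h2 : 381 * m ≤ 100 * a := by
    have h3 : (381 * m : ℝ) ≤ 100 * a := by linarith
    exact_mod_cast h3
  omega

end Pool.Agent.Results.MP_143092_co.LargeM
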