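import Pool.Agent.U396.Asym2

/-! `ch_f^*` of the class of triangle-free planar graphs is at most `4 - 1/3500`. -/

set_option autoImplicit false

namespace Pool.Agent.Results.MP_143092_co.UpperBound

/-- `G` is planar: distinct points of the plane for the vertices, simple arcs for the edges, which
meet the vertex points only at their ends and each other only at ends. -/
def Planar {V : Type} (G : SimpleGraph V) : Prop :=
  ∃ (p : V → ℝ × ℝ) (γ : V → V → unitInterval → ℝ × ℝ),
    Function.Injective p ∧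
    (∀ u v, G.Adj u v →
      Continuous (γ u v) ∧ Function.Injective (γ u v) ∧
      γ u v 0 = p u ∧ γ u v 1 = p v ∧
      (∀ t, γ u v t ∈ Set.range p → t = 0 ∨ t = 1)) ∧
    (∀ u v x y, G.Adj u v → G.Adj x y → s(u, v) ≠ s(x, y) →
      ∀ s t, γ u v s = γ x y t → s = 0 ∨ s = 1)

/-- the class of finite triangle-free planar graphs -/
def InQ {V : Type} (G : SimpleGraph V) : Prop := Finite V ∧ G.CliqueFree 3 ∧ Planar G

/-- `(a, b)`-choosability -/
def Choosable {V : Type} (G : SimpleGraph V) (a b : ℕ) : Prop :=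
  ∀ L : V → Finset ℕ, (∀ v, (L v).card = a) →
    ∃ f : V → Finset ℕ, (∀ v, f v ⊆ L v ∧ (f v).card = b) ∧
      ∀ u v, G.Adj u v → Disjoint (f u) (f v)

/-- strong fractional `α`-choosability -/
def StronglyFractional {V : Type} (G : SimpleGraph V) (α : ℝ) : Prop :=
  ∀ m : ℕ, 0 < m → Choosable G ⌈α * m⌉₊ m

/-- the strong fractional choice number of a graph -/
noncomputable def chf {V : Type} (G : SimpleGraph V) : ℝ :=
  sInf {α : ℝ | 0 < α ∧ StronglyFractional G α}

/-- the set of the strong fractional choice numbers of the triangle-free planar graphs -/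
def values : Set ℝ := {x | ∃ (V : Type) (G : SimpleGraph V), InQ G ∧ x = chf G}

theorem strongly {V : Type} (G : SimpleGraph V) (hG : InQ G) :
    StronglyFractional G (4 - 1 / 3500) := by
  obtain ⟨hV, hG3, hP⟩ := hG
  have := Fintype.ofFinite V
  intro m hm L hL
  have h1 : (4 - 1 / 3500 : ℝ) * m ≤ ⌈(4 - 1 / 3500 : ℝ) * m⌉₊ := Nat.le_ceil _
  obtain ⟨a, ha⟩ : ∃ a : ℕ, a = ⌈(4 - 1 / 3500 : ℝ) * m⌉₊ := ⟨_, rfl⟩
  rw [← ha] at h1 hL
  by_cases h : m < 3500
  · have h2 : 4 * m ≤ a := by
      by_contra hcon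
      have h3 : (a : ℝ) + 1 ≤ 4 * m := by exact_mod_cast (by omega : a + 1 ≤ 4 * m)
      have h4 : (m : ℝ) < 3500 := by exact_mod_cast h
      linarith
    exact Pool.Agent.U396.Asym.col_zero m V G hG3 hP L (fun v => by rw [hL v]; exact h2)
  · push Not at h
    refine Pool.Agent.U396.Asym.col_3500 m (4 * m - a) h ?_ V G hG3 hP L (fun v => by
      rw [hL v]; omega)
    have h2 : 400 * m ≤ m + 100 * a := by
      have h3 : (400 * m : ℝ) ≤ m + 100 * a := by
        have h5 : (0 : ℝ) ≤ m := Nat.cast_nonneg _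
        linarith
      exact_mod_cast h3
    omega

theorem chf_le {V : Type} (G : SimpleGraph V) (hG : InQ G) : chf G ≤ 4 - 1 / 3500 := by
  apply csInf_le
  · exact ⟨0, fun α hα => hα.1.le⟩
  · exact ⟨by norm_num, strongly G hG⟩

theorem values_nonempty : values.Nonempty := by
  refine ⟨chf (⊥ : SimpleGraph PUnit), PUnit, ⊥, ⟨inferInstance, ?_, ?_⟩, rfl⟩
  · exact SimpleGraph.cliqueFree_bot (by norm_num)
  · refine ⟨fun _ => (0, 0), fun _ _ _ => (0, 0), fun _ _ _ => rfl, ?_, ?_⟩
    · intro u v h
      exact absurd h (by simp)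
    · intro u v x y h
      exact absurd h (by simp)

/-- The strong fractional choice number of the class of triangle-free planar graphs, the supremum
of a nonempty set that is bounded above, is at most `4 - 1/3500`. -/
theorem result : values.Nonempty ∧ BddAbove values ∧ sSup values ≤ 4 - 1 / 3500 := by
  refine ⟨values_nonempty, ⟨4 - 1 / 3500, ?_⟩, csSup_le values_nonempty ?_⟩
  · rintro x ⟨V, G, hG, rfl⟩
    exact chf_le G hG
  · rintro x ⟨V, G, hG, rfl⟩
    exact chf_le G hG

end Pool.Agent.Results.MP_143092_co.UpperBound
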